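import Mathlib
import Pool.Agent.H12x.UF.Blk

/-! Compositions of affine maps along finite sets. -/

set_option autoImplicit false

namespace Pool.Agent.H12x.NC

open Finset Filter

/-- the composition `g ∘ f` of the maps `x ↦ f.1 * x + f.2`, `x ↦ g.1 * x + g.2` -/
def cmp (g f : ℤ × ℤ) : ℤ × ℤ := (g.1 * f.1, g.1 * f.2 + g.2)

theorem cmp_assoc (h g f : ℤ × ℤ) : cmp (cmp h g) f = cmp h (cmp g f) := by
  unfold cmp
  ext <;> simp only <;> ring

theorem cmp_one (f : ℤ × ℤ) : cmp f (1, 0) = f := by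
  unfold cmp
  ext <;> simp

theorem one_cmp (f : ℤ × ℤ) : cmp (1, 0) f = f := by
  unfold cmp
  ext <;> simp

theorem cmp_cancel {g g' f : ℤ × ℤ} (hf : 1 ≤ f.1) (h : cmp g f = cmp g' f) : g = g' := by
  unfold cmp at h
  have h1 := (Prod.ext_iff.1 h).1
  have h2 := (Prod.ext_iff.1 h).2
  simp only at h1 h2
  have h3 : g.1 = g'.1 := mul_right_cancel₀ (by omega) h1
  rw [h3] at h2
  exact Prod.ext h3 (by linarith)

theorem cmp_cancel_left {g f f' : ℤ × ℤ} (hg : 1 ≤ g.1) (h : cmp g f = cmp g f') : f = f' := by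
  unfold cmp at h
  have h1 := (Prod.ext_iff.1 h).1
  have h2 := (Prod.ext_iff.1 h).2
  simp only at h1 h2
  have h3 : f.1 = f'.1 := mul_left_cancel₀ (by omega) h1
  have h4 : f.2 = f'.2 := mul_left_cancel₀ (a := g.1) (by omega) (by linarith)
  exact Prod.ext h3 h4

theorem ev_cmp (g f : ℤ × ℤ) (x : ℤ) : (cmp g f).1 * x + (cmp g f).2 = g.1 * (f.1 * x + f.2) + g.2 := by
  unfold cmp
  ring

/-- the composition of the maps `T i`, `i ∈ β`, those with smaller `i` first -/
def tc (T : ℕ → ℤ × ℤ) (β : Finset ℕ) : ℤ × ℤ :=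
  if h : β.Nonempty then cmp (T (β.max' h)) (tc T (β.erase (β.max' h))) else (1, 0)
termination_by β.card
decreasing_by exact Finset.card_erase_lt_of_mem (max'_mem _ _)

theorem tc_empty (T : ℕ → ℤ × ℤ) : tc T ∅ = (1, 0) := by
  rw [tc]
  simp

theorem tc_insert (T : ℕ → ℤ × ℤ) {m : ℕ} {β : Finset ℕ} (h : ∀ i ∈ β, i < m) :
    tc T (insert m β) = cmp (T m) (tc T β) := by
  have hm : m ∉ β := fun h1 => lt_irrefl _ (h m h1)
  have hmax : (insert m β).max' (insert_nonempty m β) = m := by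
    apply le_antisymm
    · apply max'_le
      intro i hi
      rcases mem_insert.1 hi with rfl | h1
      · exact le_rfl
      · exact (h i h1).le
    · exact le_max' _ _ (mem_insert_self _ _)
  rw [tc, dif_pos (insert_nonempty m β), hmax, erase_insert hm]

theorem tc_union (T : ℕ → ℤ × ℤ) {β γ : Finset ℕ} (h : ∀ i ∈ β, ∀ j ∈ γ, i < j) :
    tc T (β ∪ γ) = cmp (tc T γ) (tc T β) := by
  induction γ using Finset.induction_on_max with
  | empty => rw [union_empty, tc_empty, one_cmp]
  | insert m γ hmax ih =>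
    rw [union_insert, tc_insert T, tc_insert T hmax, ih, cmp_assoc]
    · exact fun i hi j hj => h i hi j (mem_insert_of_mem hj)
    · intro i hi
      rcases mem_union.1 hi with h1 | h1
      · exact h i h1 m (mem_insert_self _ _)
      · exact hmax i h1

theorem tc_singleton (T : ℕ → ℤ × ℤ) (m : ℕ) : tc T {m} = T m := by
  have : ({m} : Finset ℕ) = insert m ∅ := by simp
  rw [this, tc_insert T (by simp), tc_empty, cmp_one]

/-- the sequences of maps considered: all compositions are admissible and different from the identity -/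
def Adm (T : ℕ → ℤ × ℤ) : Prop :=
  ∀ β : Finset ℕ, β.Nonempty → 1 ≤ (tc T β).1 ∧ IsCoprime (tc T β).1 (tc T β).2 ∧ tc T β ≠ (1, 0)

theorem Adm.pos {T : ℕ → ℤ × ℤ} (hT : Adm T) (β : Finset ℕ) : 1 ≤ (tc T β).1 := by
  rcases β.eq_empty_or_nonempty with rfl | h
  · rw [tc_empty]
  · exact (hT β h).1

theorem Adm.coprime {T : ℕ → ℤ × ℤ} (hT : Adm T) (β : Finset ℕ) : IsCoprime (tc T β).1 (tc T β).2 := by
  rcases β.eq_empty_or_nonempty with rfl | h
  · rw [tc_empty]
    exact isCoprime_one_left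
  · exact (hT β h).2.1

end Pool.Agent.H12x.NC
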