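import Mathlib
import Pool.Agent.H12x.NC.Comp

/-! Trees of nested compositions with exact prime patterns. -/

set_option autoImplicit false

namespace Pool.Agent.H12x.NC

open Finset Filter
open Pool.Agent.N790.IA (hits PI classes avoid)
open Pool.Agent.H12x.UF (Good star star_mem star_step gseq lim_val)

/-- the positions (chains of sets) from which a position without the property `G` is reached -/
inductive BadC (V : Ultrafilter (Finset ℕ)) (G : Finset (Finset ℕ) → Prop) :
    Ordinal.{0} → Finset (Finset ℕ) → Prop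
  | base (α : Ordinal.{0}) (C : Finset (Finset ℕ)) : ¬ G C → BadC V G α C
  | step (α : Ordinal.{0}) (C : Finset (Finset ℕ))
      (X : Set (Finset ℕ)) (hX : X ∈ V) (b : Finset ℕ → Ordinal.{0}) (hb : ∀ δ ∈ X, b δ < α)
      (h : ∀ δ ∈ X, BadC V G (b δ) (insert (C.sup id ∪ δ) C)) : BadC V G α C

variable {V : Ultrafilter (Finset ℕ)} {G : Finset (Finset ℕ) → Prop}

theorem good_of_notC {C : Finset (Finset ℕ)} (h : ∀ α, ¬ BadC V G α C) : G C := by
  by_contra hG
  exact h 0 (BadC.base 0 C hG)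

theorem next_of_notC {C : Finset (Finset ℕ)} (h : ∀ α, ¬ BadC V G α C) :
    {δ | ∀ α, ¬ BadC V G α (insert (C.sup id ∪ δ) C)} ∈ V := by
  classical
  by_contra hcon
  have hcon' : {δ | ∃ α, BadC V G α (insert (C.sup id ∪ δ) C)} ∈ V := by
    rw [← Ultrafilter.compl_mem_iff_notMem] at hcon
    refine Filter.mem_of_superset hcon ?_
    intro f hf
    simp only [Set.mem_compl_iff, Set.mem_ofPred_eq, not_forall, not_not] at hf
    exact hf
  set b : Finset ℕ → Ordinal.{0} := fun δ =>
    if hj : ∃ α, BadC V G α (insert (C.sup id ∪ δ) C) then hj.choose else 0 with hb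
  obtain ⟨M, hM⟩ : BddAbove (Set.range b) := Ordinal.bddAbove_of_small
  refine h (Order.succ M) (BadC.step _ C _ hcon' b (fun f _ => ?_) (fun f hf => ?_))
  · exact Order.lt_succ_of_le (hM (Set.mem_range_self f))
  · have hf' : ∃ α, BadC V G α (insert (C.sup id ∪ f) C) := hf
    simp only [hb]
    rw [dif_pos hf']
    exact hf'.choose_spec

theorem stratC (V : Ultrafilter (Finset ℕ)) (G : Finset (Finset ℕ) → Prop) (C : Finset (Finset ℕ)) :
    ∃ (X : Set (Finset ℕ)), X ∈ V ∧
      ∀ ρ, BadC V G ρ C → (∀ ρ' < ρ, ¬ BadC V G ρ' C) → G C →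
        ∀ δ ∈ X, ∃ β < ρ, BadC V G β (insert (C.sup id ∪ δ) C) := by
  by_cases h : ∃ ρ, BadC V G ρ C ∧ (∀ ρ' < ρ, ¬ BadC V G ρ' C) ∧ G C
  · obtain ⟨ρ, h1, h2, h3⟩ := h
    cases h1 with
    | base _ _ h4 => exact absurd h3 h4
    | step _ _ X hX b hb h4 =>
      refine ⟨X, hX, fun ρ' h5 h6 _ => ?_⟩
      have h7 : ρ' = ρ := by
        rcases lt_trichotomy ρ' ρ with h8 | h8 | h8
        · exact absurd h5 (h2 _ h8)
        · exact h8
        · exact absurd (BadC.step _ _ X hX b hb h4) (h6 _ h8)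
      subst h7
      exact fun f hf => ⟨b f, hb f hf, h4 f hf⟩
  · exact ⟨Set.univ, Filter.univ_mem, fun ρ h1 h2 h3 => absurd ⟨ρ, h1, h2, h3⟩ h⟩

/-- idempotent ultrafilters on the finite sets -/
def Idem (V : Ultrafilter (Finset ℕ)) : Prop :=
  (∀ m : ℕ, {β : Finset ℕ | β.Nonempty ∧ ∀ i ∈ β, m ≤ i} ∈ V) ∧
    ∀ A : Set (Finset ℕ), (A ∈ V ↔ {β : Finset ℕ | {γ : Finset ℕ | β ∪ γ ∈ A} ∈ V} ∈ V)

theorem Idem.after (hV : Idem V) (β : Finset ℕ) : {γ : Finset ℕ | ∀ i ∈ β, ∀ j ∈ γ, i < j} ∈ V := by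
  filter_upwards [hV.1 (β.sup id + 1)] with γ hγ i hi j hj
  have h1 : i ≤ β.sup id := Finset.le_sup (f := id) hi
  have h2 := hγ.2 j hj
  omega

/-- two members of a large set whose union belongs to it -/
theorem Idem.two (hV : Idem V) {A : Set (Finset ℕ)} (hA : A ∈ V) :
    ∃ β γ : Finset ℕ, β ∈ A ∧ γ ∈ A ∧ β ∪ γ ∈ A ∧ β.Nonempty ∧ ∀ i ∈ β, ∀ j ∈ γ, i < j := by
  obtain ⟨β, ⟨h1, h2⟩, h3⟩ := V.nonempty_of_mem (inter_mem (inter_mem hA ((hV.2 A).1 hA)) (hV.1 0))
  obtain ⟨γ, ⟨h4, h5⟩, h6⟩ := V.nonempty_of_mem (inter_mem (inter_mem hA h2) (hV.after β))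
  exact ⟨β, γ, h1, h4, h5, h3.1, h6⟩

variable {T : ℕ → ℤ × ℤ}

theorem Idem.free (hV : Idem V) (hT : Adm T) (h : ℤ × ℤ) : {δ | tc T δ ≠ h} ∈ V := by
  by_contra hcon
  have h1 : {δ | tc T δ = h} ∈ V := by
    rw [← Ultrafilter.compl_mem_iff_notMem] at hcon
    refine Filter.mem_of_superset hcon ?_
    intro f hf
    simpa using hf
  obtain ⟨β, γ, h2, h3, h4, h5, h6⟩ := hV.two h1
  have h2' : tc T β = h := h2
  have h3' : tc T γ = h := h3
  have h4' : tc T (β ∪ γ) = h := h4
  rw [tc_union T h6, h2', h3'] at h4'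
  have h7 : h = (1, 0) := cmp_cancel (f := h) (by rw [← h2']; exact hT.pos β) (by rw [h4', one_cmp])
  exact (hT β h5).2.2 (h2'.trans h7)

/-- the residues of a form -/
def res (m : ℕ) (f : ℤ × ℤ) : ZMod (m + 1) × ZMod (m + 1) := ((f.1 : ZMod (m + 1)), (f.2 : ZMod (m + 1)))

theorem Idem.residue (hV : Idem V) (hT : Adm T) (m : ℕ) : ∃ e : ZMod (m + 1) × ZMod (m + 1),
    {β | res m (tc T β) = e} ∈ V ∧ ((m + 1).Prime → e = (1, 0) ∨ (e.1 = 0 ∧ e.2 ≠ 0)) := by
  obtain ⟨e, he⟩ := lim_val V (fun β => res m (tc T β))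
  refine ⟨e, he, fun hp => ?_⟩
  have : Fact (m + 1).Prime := ⟨hp⟩
  obtain ⟨β, γ, h2, h3, h4, h5, h6⟩ := hV.two he
  have h2' : res m (tc T β) = e := h2
  have h3' : res m (tc T γ) = e := h3
  have h4' : res m (tc T (β ∪ γ)) = e := h4
  rw [tc_union T h6] at h4'
  have h7 : res m (cmp (tc T γ) (tc T β)) = (e.1 * e.1, e.1 * e.2 + e.2) := by
    conv_rhs => rw [← h3']
    have h8 : e.1 = ((tc T β).1 : ZMod (m + 1)) := by rw [← h2']; rfl
    have h9 : e.2 = ((tc T β).2 : ZMod (m + 1)) := by rw [← h2']; rfl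
    have h10 : ((tc T γ).1 : ZMod (m + 1)) = ((tc T β).1 : ZMod (m + 1)) := by
      have : (res m (tc T γ)).1 = (res m (tc T β)).1 := by rw [h2', h3']
      exact this
    have h11 : ((tc T γ).2 : ZMod (m + 1)) = ((tc T β).2 : ZMod (m + 1)) := by
      have : (res m (tc T γ)).2 = (res m (tc T β)).2 := by rw [h2', h3']
      exact this
    unfold res cmp
    ext
    · simp only [Int.cast_mul, h10]
    · simp only [Int.cast_mul, Int.cast_add, h10, h11]
  rw [h7] at h4'
  have h12 : e.1 * e.1 = e.1 := (Prod.ext_iff.1 h4').1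
  have h13 : e.1 * e.2 + e.2 = e.2 := (Prod.ext_iff.1 h4').2
  have h14 : e.1 * e.2 = 0 := by linear_combination h13
  rcases mul_eq_zero.1 h14 with h | h
  · refine Or.inr ⟨h, fun h0 => ?_⟩
    have h15 : ((tc T β).1 : ZMod (m + 1)) = 0 := by
      have : (res m (tc T β)).1 = e.1 := by rw [h2']
      rw [h] at this
      exact this
    have h16 : ((tc T β).2 : ZMod (m + 1)) = 0 := by
      have : (res m (tc T β)).2 = e.2 := by rw [h2']
      rw [h0] at this
      exact this
    rw [ZMod.intCast_zmod_eq_zero_iff_dvd] at h15 h16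
    have := (hT.coprime β).isUnit_of_dvd' h15 h16
    exact (Nat.prime_iff_prime_int.1 hp).not_isUnit this
  · by_cases h0 : e.1 = 0
    · exfalso
      have h15 : ((tc T β).1 : ZMod (m + 1)) = 0 := by
        have : (res m (tc T β)).1 = e.1 := by rw [h2']
        rw [h0] at this
        exact this
      have h16 : ((tc T β).2 : ZMod (m + 1)) = 0 := by
        have : (res m (tc T β)).2 = e.2 := by rw [h2']
        rw [h] at this
        exact this
      rw [ZMod.intCast_zmod_eq_zero_iff_dvd] at h15 h16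
      have := (hT.coprime β).isUnit_of_dvd' h15 h16
      exact (Nat.prime_iff_prime_int.1 hp).not_isUnit this
    · left
      have h15 : e.1 = 1 := by
        have h16 : e.1 * (e.1 - 1) = 0 := by linear_combination h12
        rcases mul_eq_zero.1 h16 with h17 | h17
        · exact absurd h17 h0
        · exact sub_eq_zero.1 h17
      exact Prod.ext h15 h

/-- the maps which belong to a position -/
def fs (T : ℕ → ℤ × ℤ) (C : Finset (Finset ℕ)) : Finset (ℤ × ℤ) := insert (1, 0) (C.image (tc T))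

/-- the maps of the position take prime values at infinitely many primes where those of any given finite set of
other maps do not -/
def ExC (T : ℕ → ℤ × ℤ) (C : Finset (Finset ℕ)) : Prop :=
  ∀ S : Finset (ℤ × ℤ), (∀ g ∈ S, 1 ≤ g.1 ∧ g ∉ fs T C) → Good (fs T C) S

/-- all finite sets of unions of members of `Q` -/
def KC (Q : Finset (Finset ℕ)) : Finset (Finset (Finset ℕ)) := (Q.powerset.image (fun R => R.biUnion id)).powerset

theorem KC_mono {Q Q' : Finset (Finset ℕ)} (h : Q ⊆ Q') : KC Q ⊆ KC Q' :=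
  powerset_mono.2 (image_subset_image (powerset_mono.2 h))

/-- unions of later members of a generic sequence belong to the starred sets -/
theorem hA {γ : ℕ → Finset ℕ} {Y : Finset (Finset ℕ) → Set (Finset ℕ)}
    (h1 : ∀ m, ∀ C ∈ KC ((range m).image γ), γ m ∈ star V (Y C))
    (h2 : ∀ m, ∀ C ∈ KC ((range m).image γ), ∀ R ∈ ((range m).image γ).powerset,
      R.biUnion id ∈ star V (Y C) → R.biUnion id ∪ γ m ∈ star V (Y C)) :
    ∀ (l : ℕ) (C : Finset (Finset ℕ)), C ∈ KC ((range l).image γ) →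
      ∀ α : Finset ℕ, α.Nonempty → (∀ i ∈ α, l ≤ i) → α.biUnion γ ∈ star V (Y C) := by
  classical
  intro l C hC α
  induction α using Finset.induction_on_max with
  | empty => intro h; exact absurd h (by simp)
  | insert m α hmax ih =>
    intro _ hl
    have hlm : l ≤ m := hl m (mem_insert_self _ _)
    have hCm : C ∈ KC ((range m).image γ) := KC_mono (image_subset_image (range_subset_range.2 hlm)) hC
    rcases α.eq_empty_or_nonempty with rfl | hne
    · have := h1 m C hCm
      simpa using this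
    · have h3 := ih hne (fun i hi => hl i (mem_insert_of_mem hi))
      have h4 := h2 m C hCm (α.image γ) (by
        rw [mem_powerset]
        refine image_subset_image ?_
        intro i hi
        exact mem_range.2 (hmax i hi))
      have h5 : (α.image γ).biUnion id = α.biUnion γ := by
        rw [image_biUnion]
        rfl
      rw [h5] at h4
      rw [biUnion_insert, union_comm]
      exact h4 h3

end Pool.Agent.H12x.NC
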