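import Mathlib
import Pool.Agent.H12x.NC.Rank

/-! Trees of nested compositions with exact prime patterns: the rank argument. -/

set_option autoImplicit false

namespace Pool.Agent.H12x.NC

open Finset Filter
open Pool.Agent.N790.IA (hits PI classes avoid)
open Pool.Agent.H12x.UF (Good star star_mem star_step gseq lim_val)

variable {V : Ultrafilter (Finset ℕ)} {T : ℕ → ℤ × ℤ}

/-- facts about sequences of successive sets -/
structure Succ (γ : ℕ → Finset ℕ) : Prop where
  ne : ∀ m, (γ m).Nonempty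
  lt : ∀ k l, k < l → ∀ i ∈ γ k, ∀ j ∈ γ l, i < j

theorem Succ.inj {γ : ℕ → Finset ℕ} (h : Succ γ) : Function.Injective γ := by
  intro i j hij
  by_contra hne
  rcases lt_or_gt_of_ne hne with h1 | h1
  · obtain ⟨x, hx⟩ := h.ne i
    exact lt_irrefl _ (h.lt i j h1 x hx x (hij ▸ hx))
  · obtain ⟨x, hx⟩ := h.ne j
    exact lt_irrefl _ (h.lt j i h1 x hx x (hij ▸ hx))

theorem Succ.bU_lt {γ : ℕ → Finset ℕ} (h : Succ γ) {A B : Finset ℕ} (hAB : ∀ i ∈ A, ∀ j ∈ B, i < j) :
    ∀ i ∈ A.biUnion γ, ∀ j ∈ B.biUnion γ, i < j := by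
  intro i hi j hj
  obtain ⟨a, ha, hia⟩ := mem_biUnion.1 hi
  obtain ⟨b, hb, hjb⟩ := mem_biUnion.1 hj
  exact h.lt a b (hAB a ha b hb) i hia j hjb

theorem Succ.bU_ne {γ : ℕ → Finset ℕ} (h : Succ γ) {A : Finset ℕ} (hA : A.Nonempty) : (A.biUnion γ).Nonempty := by
  obtain ⟨a, ha⟩ := hA
  obtain ⟨i, hi⟩ := h.ne a
  exact ⟨i, mem_biUnion.2 ⟨a, ha, hi⟩⟩

/-- generic sequences of sets -/
theorem generic (hV : Idem V) (hT : Adm T) (Y : Finset (Finset ℕ) → Set (Finset ℕ)) (hY : ∀ C, Y C ∈ V) :
    ∃ γ : ℕ → Finset ℕ, Succ γ ∧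
      (∀ (l : ℕ) (C : Finset (Finset ℕ)), C ∈ KC ((range l).image γ) →
        ∀ α : Finset ℕ, α.Nonempty → (∀ i ∈ α, l ≤ i) → α.biUnion γ ∈ Y C) ∧
      ∀ q : ℕ, q.Prime → ∃ x : ℕ, ∀ t, ¬ (q : ℤ) ∣
        (tc T ((range (t + 1)).biUnion γ)).1 * x + (tc T ((range (t + 1)).biUnion γ)).2 := by
  classical
  choose e he he2 using fun m : ℕ => hV.residue hT m
  obtain ⟨γ, hγ⟩ := gseq (n := 1) (fun _ => V) (fun _ => 0)
    (fun _ Q => {β | β.Nonempty ∧ ∀ i ∈ β, Q.sup (fun γ => γ.sup id) + 1 ≤ i} ∩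
      ({β | ∀ m ∈ range (Q.card + 1), res m (tc T β) = e m} ∩
      ({β | ∀ C ∈ KC Q, β ∈ star V (Y C)} ∩
      {β | ∀ C ∈ KC Q, ∀ R ∈ Q.powerset, R.biUnion id ∈ star V (Y C) → R.biUnion id ∪ β ∈ star V (Y C)}))) (by
    intro _ Q
    refine inter_mem (hV.1 _) (inter_mem ?_ (inter_mem ?_ ?_))
    · have : ∀ᶠ β in (V : Filter (Finset ℕ)), ∀ m ∈ range (Q.card + 1), res m (tc T β) = e m := by
        rw [Filter.eventually_all_finset]
        intro m _
        exact he m
      exact this
    · have : ∀ᶠ β in (V : Filter (Finset ℕ)), ∀ C ∈ KC Q, β ∈ star V (Y C) := by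
        rw [Filter.eventually_all_finset]
        intro C _
        exact star_mem hV.2 (hY C)
      exact this
    · have : ∀ᶠ β in (V : Filter (Finset ℕ)), ∀ C ∈ KC Q, ∀ R ∈ Q.powerset,
          R.biUnion id ∈ star V (Y C) → R.biUnion id ∪ β ∈ star V (Y C) := by
        rw [Filter.eventually_all_finset]
        intro C _
        rw [Filter.eventually_all_finset]
        intro R _
        by_cases hR : R.biUnion id ∈ star V (Y C)
        · filter_upwards [star_step hV.2 hR] with β hβ _ using hβ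
        · filter_upwards with β h using absurd h hR
      exact this)
  have hlt : ∀ k l, k < l → ∀ i ∈ γ k, ∀ j ∈ γ l, i < j := by
    intro k l hkl i hi j hj
    have h1 := (hγ l).1.2 j hj
    have h2 : i ≤ (((range l).image γ).sup (fun γ => γ.sup id)) := by
      refine le_trans (Finset.le_sup (f := id) hi) (Finset.le_sup (f := fun γ : Finset ℕ => γ.sup id) ?_)
      exact mem_image_of_mem _ (mem_range.2 hkl)
    omega
  have hS : Succ γ := ⟨fun m => (hγ m).1.1, hlt⟩
  refine ⟨γ, hS, fun l C hC α hα hl => ?_, ?_⟩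
  · exact (hA (V := V) (Y := Y) (fun m => (hγ m).2.2.1) (fun m => (hγ m).2.2.2) l C hC α hα hl).1
  · have hcard : ∀ i, ((range i).image γ).card = i := by
      intro i
      rw [card_image_of_injective _ hS.inj, card_range]
    intro q hq
    have : Fact q.Prime := ⟨hq⟩
    obtain ⟨m, rfl⟩ : ∃ m, q = m + 1 := ⟨q - 1, by have := hq.pos; omega⟩
    set F : ℕ → ℤ × ℤ := fun t => tc T ((range (t + 1)).biUnion γ) with hF
    have hFs : ∀ t, F (t + 1) = cmp (tc T (γ (t + 1))) (F t) := by
      intro t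
      have h1 : (range (t + 1 + 1)).biUnion γ = (range (t + 1)).biUnion γ ∪ γ (t + 1) := by
        rw [range_add_one (n := t + 1), biUnion_insert, union_comm]
      simp only [hF]
      rw [h1, tc_union T]
      intro i hi j hj
      obtain ⟨a, ha, hia⟩ := mem_biUnion.1 hi
      exact hlt a (t + 1) (mem_range.1 ha) i hia j hj
    have hm : 1 ≤ m := by have := hq.two_le; omega
    have hnz : ∀ t, res m (F t) ≠ 0 := by
      intro t h
      have h1 := (Prod.ext_iff.1 h).1
      have h2 := (Prod.ext_iff.1 h).2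
      simp only [res, Prod.fst_zero, Prod.snd_zero] at h1 h2
      rw [ZMod.intCast_zmod_eq_zero_iff_dvd] at h1 h2
      have := (hT.coprime ((range (t + 1)).biUnion γ)).isUnit_of_dvd' h1 h2
      exact (Nat.prime_iff_prime_int.1 hq).not_isUnit this
    have hres : ∀ g f : ℤ × ℤ, res m (cmp g f) = ((res m g).1 * (res m f).1, (res m g).1 * (res m f).2 + (res m g).2) := by
      intro g f
      unfold res cmp
      ext <;> simp
    obtain ⟨x, hx⟩ := avoid hq ((range m).image (fun t => res m (F t))) (by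
      refine lt_of_le_of_lt card_image_le ?_
      rw [card_range]
      omega) (by
      intro d hd
      obtain ⟨t, _, rfl⟩ := mem_image.1 hd
      exact hnz t)
    have hstep : ∀ t, m ≤ t + 1 → res m (F (t + 1)) = ((e m).1 * (res m (F t)).1, (e m).1 * (res m (F t)).2 + (e m).2) := by
      intro t ht
      rw [hFs, hres, (hγ (t + 1)).2.1 m (mem_range.2 (by rw [hcard]; omega))]
    have hall : ∀ t, (res m (F t)).1 * x + (res m (F t)).2 ≠ 0 := by
      intro t
      by_cases ht : t < m
      · exact hx _ (mem_image_of_mem _ (mem_range.2 ht))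
      · push Not at ht
        rcases he2 m hq with h | ⟨h, h'⟩
        · have : ∀ s, m - 1 ≤ s → res m (F s) = res m (F (m - 1)) := by
            intro s hs
            induction s, hs using Nat.le_induction with
            | base => rfl
            | succ s hs ih =>
              rw [hstep s (by omega), ih, h]
              ext <;> simp
          rw [this t (by omega)]
          exact hx _ (mem_image_of_mem _ (mem_range.2 (by omega)))
        · obtain ⟨s, rfl⟩ : ∃ s, t = s + 1 := ⟨t - 1, by omega⟩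
          rw [hstep s ht, h]
          simpa using h'
    refine ⟨x.val, fun t hi => ?_⟩
    have h1 := (ZMod.intCast_zmod_eq_zero_iff_dvd _ (m + 1)).2 hi
    push_cast at h1
    rw [ZMod.natCast_zmod_val] at h1
    exact hall t h1

end Pool.Agent.H12x.NC
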