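import Mathlib
import Pool.Agent.H12x.NC.Main

/-! Trees of nested compositions with exact prime patterns: the rank argument. -/

set_option autoImplicit false

namespace Pool.Agent.H12x.NC

open Finset Filter
open Pool.Agent.N790.IA (hits PI classes avoid)
open Pool.Agent.H12x.UF (Good star star_mem star_step gseq lim_val)

variable {V : Ultrafilter (Finset ℕ)} {T : ℕ → ℤ × ℤ}

theorem tc_Ioc {γ : ℕ → Finset ℕ} (hS : Succ γ) {s t : ℕ} (hst : s ≤ t) :
    tc T ((range (t + 1)).biUnion γ) =
      cmp (tc T ((Ioc s t).biUnion γ)) (tc T ((range (s + 1)).biUnion γ)) := by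
  have h1 : (range (t + 1)).biUnion γ = (range (s + 1)).biUnion γ ∪ (Ioc s t).biUnion γ := by
    rw [← union_biUnion]
    congr 1
    ext i
    simp only [mem_range, mem_union, mem_Ioc]
    omega
  rw [h1, tc_union T]
  apply hS.bU_lt
  intro i hi j hj
  rw [mem_range] at hi
  rw [mem_Ioc] at hj
  omega

theorem not_bad (hV : Idem V) (hT : Adm T) : ∀ α, ¬ BadC V (ExC T) α ∅ := by
  classical
  intro α hα
  choose sX hsX hs using fun C : Finset (Finset ℕ) => stratC V (ExC T) C
  have hT' : ∀ C : Finset (Finset ℕ), ∃ S : Finset (ℤ × ℤ), (∀ g ∈ S, 1 ≤ g.1 ∧ g ∉ fs T C) ∧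
      (¬ ExC T C → ¬ Good (fs T C) S) := by
    intro C
    by_cases h : ExC T C
    · exact ⟨∅, by simp, fun h2 => absurd h h2⟩
    · unfold ExC at h
      push Not at h
      obtain ⟨S, h1, h2⟩ := h
      exact ⟨S, h1, fun _ => h2⟩
  choose S hS1 hS2 using hT'
  have hY : ∀ C, sX C ∩ {δ | tc T (C.sup id ∪ δ) ∉ S C} ∈ V := by
    intro C
    refine inter_mem (hsX C) ?_
    have h1 : ∀ᶠ δ in (V : Filter (Finset ℕ)), ∀ g ∈ S C, cmp (tc T δ) (tc T (C.sup id)) ≠ g := by
      rw [Filter.eventually_all_finset]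
      intro g _
      by_cases h2 : ∃ δ₀, cmp (tc T δ₀) (tc T (C.sup id)) = g
      · obtain ⟨δ₀, h3⟩ := h2
        filter_upwards [hV.free hT (tc T δ₀)] with δ h4 h5
        exact h4 (cmp_cancel (hT.pos _) (h5.trans h3.symm))
      · push Not at h2
        filter_upwards with δ using h2 δ
    have h2 := hV.after (C.sup id)
    filter_upwards [h1, h2] with δ h3 h4 h5
    rw [tc_union T h4] at h5
    exact h3 _ h5 rfl
  obtain ⟨γ, hγ, hγY, hloc⟩ := generic hV hT _ hY
  set F : ℕ → ℤ × ℤ := fun t => tc T ((range (t + 1)).biUnion γ) with hF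
  have hFne : ∀ s t, s < t → F s ≠ F t := by
    intro s t hst h
    have h1 : F t = cmp (tc T ((Ioc s t).biUnion γ)) (F s) := tc_Ioc hγ hst.le
    rw [← h] at h1
    have h2 : tc T ((Ioc s t).biUnion γ) = (1, 0) :=
      cmp_cancel (f := F s) (hT.pos _) (by rw [← h1, one_cmp])
    exact (hT _ (hγ.bU_ne (by rw [nonempty_Ioc]; exact hst))).2.2 h2
  have hFinj : Function.Injective F := by
    intro s t h
    rcases lt_trichotomy s t with h1 | h1 | h1
    · exact absurd h (hFne s t h1)
    · exact h1
    · exact absurd h.symm (hFne t s h1)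
  obtain ⟨off, hoff, h0, hcl⟩ := classes
  obtain ⟨I, hPI, hI⟩ := hcl 1 le_rfl (fun i => (F i).1) (fun i => (F i).2) (fun i => hT.pos _)
    (fun i => hT.coprime _) (fun i j hij => hFinj (Prod.ext (Prod.ext_iff.1 hij).1 (Prod.ext_iff.1 hij).2))
    hloc
  have hinf : ∀ N : ℕ, ∃ i ∈ I, N ≤ i := by
    intro N
    obtain ⟨j, hj, hj2⟩ := (Filter.frequently_atTop.1 hPI) N
    have h1 : ((range 1).filter (fun a => hits off I (j * 1 + a))).Nonempty := by
      rw [← Finset.card_pos]
      omega
    obtain ⟨a, ha⟩ := h1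
    obtain ⟨i, hi, hiI⟩ := (mem_filter.1 ha).2
    rw [mem_Ico] at hi
    have h2 : j * 1 + a ≤ off (j * 1 + a) := hoff.id_le _
    exact ⟨i, hiI, by omega⟩
  have hI0 : ∃ i, i ∈ I := (hinf 0).imp fun i h => h.1
  obtain ⟨t₀, ht₀⟩ : ∃ t₀, t₀ = Nat.find hI0 := ⟨_, rfl⟩
  have ht₀I : t₀ ∈ I := ht₀ ▸ Nat.find_spec hI0
  have ht₀min : ∀ i ∈ I, t₀ ≤ i := fun i hi => ht₀ ▸ Nat.find_min' hI0 hi
  set CN : ℕ → Finset (Finset ℕ) := fun N =>
    ((range N).filter (fun t => t ∈ I ∧ t₀ < t)).image (fun t => (Ioc t₀ t).biUnion γ) with hCN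
  -- the last index of a position
  have hlast : ∀ N, t₀ < N → ∃ u, t₀ ≤ u ∧ u < N ∧ (CN N).sup id = (Ioc t₀ u).biUnion γ ∧
      CN N ∈ KC ((range (u + 1)).image γ) := by
    intro N hN
    rcases ((range N).filter (fun t => t ∈ I ∧ t₀ < t)).eq_empty_or_nonempty with h | h
    · refine ⟨t₀, le_rfl, hN, ?_, ?_⟩
      · simp [hCN, h]
      · simp [hCN, h, KC]
    · obtain ⟨u, hu⟩ : ∃ u, u = ((range N).filter (fun t => t ∈ I ∧ t₀ < t)).max' h := ⟨_, rfl⟩
      have hu1 := max'_mem _ h
      rw [← hu, mem_filter, mem_range] at hu1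
      have hu2 : ∀ t ∈ (range N).filter (fun t => t ∈ I ∧ t₀ < t), t ≤ u := fun t ht => hu ▸ le_max' _ t ht
      refine ⟨u, hu1.2.2.le, hu1.1, ?_, ?_⟩
      · apply le_antisymm
        · apply Finset.sup_le
          intro δ hδ
          obtain ⟨t, ht, rfl⟩ := mem_image.1 hδ
          exact biUnion_subset_biUnion_of_subset_left γ (Ioc_subset_Ioc le_rfl (hu2 t ht))
        · exact Finset.le_sup (f := id) (mem_image_of_mem (fun t => (Ioc t₀ t).biUnion γ)
            (mem_filter.2 ⟨mem_range.2 hu1.1, hu1.2⟩))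
      · simp only [KC, hCN, mem_powerset]
        intro δ hδ
        obtain ⟨t, ht, rfl⟩ := mem_image.1 hδ
        have htu := hu2 t ht
        refine mem_image.2 ⟨(Ioc t₀ t).image γ, ?_, ?_⟩
        · rw [mem_powerset]
          refine image_subset_image ?_
          intro i hi
          rw [mem_Ioc] at hi
          exact mem_range.2 (by omega)
        · rw [image_biUnion]
          rfl
  have hjoin : ∀ u t, t₀ ≤ u → u ≤ t → (Ioc t₀ u).biUnion γ ∪ (Ioc u t).biUnion γ = (Ioc t₀ t).biUnion γ := by
    intro u t h1 h2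
    rw [← union_biUnion]
    congr 1
    ext i
    simp only [mem_union, mem_Ioc]
    omega
  have key : ∀ ρ : Ordinal.{0}, ∀ N : ℕ, t₀ < N → BadC V (ExC T) ρ (CN N) → False := by
    intro ρ
    induction ρ using WellFoundedLT.induction with
    | ind ρ ih =>
      intro N hN hB
      by_cases hmin : ∃ ρ' < ρ, BadC V (ExC T) ρ' (CN N)
      · obtain ⟨ρ', h1, h2⟩ := hmin
        exact ih ρ' h1 N hN h2
      · push Not at hmin
        obtain ⟨u, hu1, hu2, hu3, hu4⟩ := hlast N hN
        have hG : ExC T (CN N) := by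
          by_contra hnot
          refine hS2 (CN N) hnot ?_
          have hpos : ∀ g ∈ fs T (CN N) ∪ S (CN N), 1 ≤ g.1 := by
            intro g hg
            rcases mem_union.1 hg with h | h
            · rcases mem_insert.1 h with rfl | h'
              · exact le_rfl
              · obtain ⟨δ, _, rfl⟩ := mem_image.1 h'
                exact hT.pos _
            · exact (hS1 _ g h).1
          have hX0 := hI (((fs T (CN N) ∪ S (CN N))).image (fun g => cmp g (F t₀))) (by
            intro f hf
            obtain ⟨g, hg, rfl⟩ := mem_image.1 hf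
            have h1 := hpos g hg
            have h2 : 1 ≤ (F t₀).1 := hT.pos _
            change 1 ≤ g.1 * (F t₀).1
            nlinarith)
          obtain ⟨X0, hX0e⟩ : ∃ X0, X0 = {x : ℕ | ∀ f ∈ ((fs T (CN N) ∪ S (CN N))).image (fun g => cmp g (F t₀)),
            (Nat.Prime (f.1 * x + f.2).toNat ↔ ∃ i ∈ I, f = ((F i).1, (F i).2))} := ⟨_, rfl⟩
          rw [← hX0e] at hX0
          have hX : ∀ x ∈ X0, ∀ g ∈ fs T (CN N) ∪ S (CN N),
              (Nat.Prime ((cmp g (F t₀)).1 * x + (cmp g (F t₀)).2).toNat ↔ ∃ i ∈ I, cmp g (F t₀) = F i) := by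
            intro x hx g hg
            rw [hX0e] at hx
            exact hx _ (mem_image_of_mem _ hg)
          have hone : ((1, 0) : ℤ × ℤ) ∈ fs T (CN N) := mem_insert_self _ _
          have hy : ∀ x ∈ X0, 0 < (F t₀).1 * (x : ℤ) + (F t₀).2 := by
            intro x hx
            have h1 := (hX x hx (1, 0) (mem_union_left _ hone)).2 ⟨t₀, ht₀I, one_cmp _⟩
            rw [one_cmp] at h1
            by_contra hneg
            push Not at hneg
            rw [Int.toNat_of_nonpos hneg] at h1
            exact Nat.not_prime_zero h1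
          have hinj : Set.InjOn (fun x : ℕ => ((F t₀).1 * (x : ℤ) + (F t₀).2).toNat) X0 := by
            intro x hx x' hx' h
            have h1 := hy x hx
            have h2 := hy x' hx'
            simp only at h
            have h3 : (F t₀).1 * (x : ℤ) + (F t₀).2 = (F t₀).1 * (x' : ℤ) + (F t₀).2 := by omega
            have h4 : 1 ≤ (F t₀).1 := hT.pos _
            have h5 : (x : ℤ) = x' := mul_left_cancel₀ (a := (F t₀).1) (by omega) (by linarith)
            exact_mod_cast h5
          refine (hX0.image hinj).mono ?_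
          rintro _ ⟨x, hx, rfl⟩
          have hyx := hy x hx
          have hcast : ((((F t₀).1 * (x : ℤ) + (F t₀).2).toNat : ℕ) : ℤ) = (F t₀).1 * (x : ℤ) + (F t₀).2 :=
            Int.toNat_of_nonneg hyx.le
          refine ⟨fun g hg => ?_, fun g hg hq => ?_⟩
          · rw [hcast, ← ev_cmp]
            rw [hX x hx g (mem_union_left _ hg)]
            rcases mem_insert.1 hg with rfl | h'
            · exact ⟨t₀, ht₀I, one_cmp _⟩
            · obtain ⟨δ, hδ, rfl⟩ := mem_image.1 h'
              obtain ⟨t, ht, rfl⟩ := mem_image.1 hδ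
              have h3 := (mem_filter.1 ht).2
              exact ⟨t, h3.1, (tc_Ioc hγ h3.2.le).symm⟩
          · rw [hcast, ← ev_cmp] at hq
            obtain ⟨i, hi, hgi⟩ := (hX x hx g (mem_union_right _ hg)).1 hq
            have hi0 := ht₀min i hi
            rcases hi0.eq_or_lt with h | h
            · rw [← h] at hgi
              have h4 : g = (1, 0) := cmp_cancel (f := F t₀) (hT.pos _) (by rw [hgi, one_cmp])
              exact (hS1 _ g hg).2 (h4 ▸ hone)
            · have h5 : g = tc T ((Ioc t₀ i).biUnion γ) :=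
                cmp_cancel (f := F t₀) (hT.pos _) (by rw [hgi]; exact tc_Ioc hγ h.le)
              rcases Nat.lt_or_ge i N with h6 | h6
              · refine (hS1 _ g hg).2 (mem_insert_of_mem ?_)
                rw [h5]
                exact mem_image_of_mem _ (mem_image_of_mem (fun t => (Ioc t₀ t).biUnion γ)
                  (mem_filter.2 ⟨mem_range.2 h6, hi, h⟩))
              · have h7 := hγY (u + 1) (CN N) hu4 (Ioc u i) (by rw [nonempty_Ioc]; omega)
                  (fun j hj => by rw [mem_Ioc] at hj; omega)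
                have h8 : tc T ((CN N).sup id ∪ (Ioc u i).biUnion γ) ∉ S (CN N) := h7.2
                rw [hu3, hjoin u i hu1 (by omega), ← h5] at h8
                exact h8 hg
        have hX := hs (CN N) ρ hB hmin hG
        obtain ⟨M, hM⟩ : ∃ M, M = Nat.find (hinf N) := ⟨_, rfl⟩
        obtain ⟨hMI, hMN⟩ := Nat.find_spec (hinf N)
        rw [← hM] at hMI hMN
        have h7 := hγY (u + 1) (CN N) hu4 (Ioc u M) (by rw [nonempty_Ioc]; omega)
          (fun j hj => by rw [mem_Ioc] at hj; omega)
        obtain ⟨ρ', hρ', hB'⟩ := hX _ h7.1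
        refine ih ρ' hρ' (M + 1) (by omega) ?_
        have e : CN (M + 1) = insert ((CN N).sup id ∪ (Ioc u M).biUnion γ) (CN N) := by
          rw [hu3, hjoin u M hu1 (by omega)]
          simp only [hCN]
          rw [← image_insert (fun t => (Ioc t₀ t).biUnion γ)]
          congr 1
          ext j
          simp only [mem_filter, mem_range, mem_insert]
          constructor
          · rintro ⟨h1, h2, h2'⟩
            by_cases h3 : j = M
            · exact Or.inl h3
            · refine Or.inr ⟨?_, h2, h2'⟩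
              by_contra h4
              have := Nat.find_min' (hinf N) ⟨h2, not_lt.1 h4⟩
              omega
          · rintro (rfl | ⟨h1, h2⟩)
            · exact ⟨Nat.lt_succ_self _, hMI, by omega⟩
            · exact ⟨by omega, h2⟩
        rw [e]
        exact hB'
  refine key α (t₀ + 1) (Nat.lt_succ_self _) ?_
  have : CN (t₀ + 1) = ∅ := by
    simp only [hCN, image_eq_empty, filter_eq_empty_iff, mem_range]
    intro t ht h
    omega
  rw [this]
  exact hα

/-- **Trees of nested compositions.** -/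
theorem tree_nested (hV : Idem V) (hT : Adm T) :
    ∃ W : Set (Finset (Finset ℕ)), ∅ ∈ W ∧ (∀ C ∈ W, ExC T C) ∧ ∀ C ∈ W, {δ | insert (C.sup id ∪ δ) C ∈ W} ∈ V :=
  ⟨{C | ∀ α, ¬ BadC V (ExC T) α C}, not_bad hV hT, fun _ hC => good_of_notC hC,
    fun _ hC => next_of_notC hC⟩

end Pool.Agent.H12x.NC
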