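import Mathlib
import Pool.Agent.H12x.NC.Bad
import Pool.Agent.H12x.UF.Cor

/-! Block sequences inside countably many trees of nested compositions. -/

set_option autoImplicit false

namespace Pool.Agent.H12x.NC

open Finset Filter
open Pool.Agent.H12x.UF (Good star star_mem star_step gseq lim_val Blocks)

variable {V : Ultrafilter (Finset ℕ)}

theorem hA' {γ : ℕ → Finset ℕ} {E : Finset (Finset ℕ) → Set (Finset ℕ)} {W : Set (Finset (Finset ℕ))} {ρ : ℕ}
    (h1 : ∀ m, ρ ≤ m → ∀ C ∈ KC ((range m).image γ), C ∈ W → γ m ∈ star V (E C))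
    (h2 : ∀ m, ρ ≤ m → ∀ C ∈ KC ((range m).image γ), ∀ R ∈ ((range m).image γ).powerset,
      R.biUnion id ∈ star V (E C) → R.biUnion id ∪ γ m ∈ star V (E C)) :
    ∀ (l : ℕ), ρ ≤ l → ∀ (C : Finset (Finset ℕ)), C ∈ KC ((range l).image γ) → C ∈ W →
      ∀ α : Finset ℕ, α.Nonempty → (∀ i ∈ α, l ≤ i) → α.biUnion γ ∈ star V (E C) := by
  classical
  intro l hρ C hC hCW α
  induction α using Finset.induction_on_max with
  | empty => intro h; exact absurd h (by simp)
  | insert m α hmax ih =>
    intro _ hl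
    have hlm : l ≤ m := hl m (mem_insert_self _ _)
    have hCm : C ∈ KC ((range m).image γ) := KC_mono (image_subset_image (range_subset_range.2 hlm)) hC
    rcases α.eq_empty_or_nonempty with rfl | hne
    · have := h1 m (by omega) C hCm hCW
      simpa using this
    · have h3 := ih hne (fun i hi => hl i (mem_insert_of_mem hi))
      have h4 := h2 m (by omega) C hCm (α.image γ) (by
        rw [mem_powerset]
        refine image_subset_image ?_
        intro i hi
        exact mem_range.2 (hmax i hi))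
      have h5 : (α.image γ).biUnion id = α.biUnion γ := by
        rw [image_biUnion]
        rfl
      rw [h5] at h4
      rw [biUnion_insert, union_comm]
      exact h4 h3

theorem fusion (hV : Idem V) (W : ℕ → Set (Finset (Finset ℕ))) (h0 : ∀ ρ, ∅ ∈ W ρ)
    (hW : ∀ ρ, ∀ C ∈ W ρ, {δ | insert (C.sup id ∪ δ) C ∈ W ρ} ∈ V) :
    ∃ H : ℕ → Finset ℕ, Succ H ∧ ∀ (ρ : ℕ) (α : ℕ → Finset ℕ), Succ α → (∀ i ∈ α 0, ρ ≤ i) →
      ∀ L, (range L).image (fun l => ((range (l + 1)).biUnion α).biUnion H) ∈ W ρ := by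
  classical
  set E : ℕ → Finset (Finset ℕ) → Set (Finset ℕ) := fun ρ C => {δ | insert (C.sup id ∪ δ) C ∈ W ρ} with hE
  obtain ⟨H, hH⟩ := gseq (n := 1) (fun _ => V) (fun _ => 0)
    (fun _ Q => {β | β.Nonempty ∧ ∀ i ∈ β, Q.sup (fun γ => γ.sup id) + 1 ≤ i} ∩
      ({β | ∀ ρ ∈ range (Q.card + 1), ∀ C ∈ KC Q, C ∈ W ρ → β ∈ star V (E ρ C)} ∩
      {β | ∀ ρ ∈ range (Q.card + 1), ∀ C ∈ KC Q, ∀ R ∈ Q.powerset,
        R.biUnion id ∈ star V (E ρ C) → R.biUnion id ∪ β ∈ star V (E ρ C)})) (by
    intro _ Q
    refine inter_mem (hV.1 _) (inter_mem ?_ ?_)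
    · have : ∀ᶠ β in (V : Filter (Finset ℕ)), ∀ ρ ∈ range (Q.card + 1), ∀ C ∈ KC Q, C ∈ W ρ →
          β ∈ star V (E ρ C) := by
        rw [Filter.eventually_all_finset]
        intro ρ _
        rw [Filter.eventually_all_finset]
        intro C _
        by_cases hC : C ∈ W ρ
        · filter_upwards [star_mem hV.2 (hW ρ C hC)] with β hβ _ using hβ
        · filter_upwards with β h using absurd h hC
      exact this
    · have : ∀ᶠ β in (V : Filter (Finset ℕ)), ∀ ρ ∈ range (Q.card + 1), ∀ C ∈ KC Q, ∀ R ∈ Q.powerset,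
          R.biUnion id ∈ star V (E ρ C) → R.biUnion id ∪ β ∈ star V (E ρ C) := by
        rw [Filter.eventually_all_finset]
        intro ρ _
        rw [Filter.eventually_all_finset]
        intro C _
        rw [Filter.eventually_all_finset]
        intro R _
        by_cases hR : R.biUnion id ∈ star V (E ρ C)
        · filter_upwards [star_step hV.2 hR] with β hβ _ using hβ
        · filter_upwards with β h using absurd h hR
      exact this)
  have hlt : ∀ k l, k < l → ∀ i ∈ H k, ∀ j ∈ H l, i < j := by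
    intro k l hkl i hi j hj
    have h1 := (hH l).1.2 j hj
    have h2 : i ≤ (((range l).image H).sup (fun γ => γ.sup id)) := by
      refine le_trans (Finset.le_sup (f := id) hi) (Finset.le_sup (f := fun γ : Finset ℕ => γ.sup id) ?_)
      exact mem_image_of_mem _ (mem_range.2 hkl)
    omega
  have hS : Succ H := ⟨fun m => (hH m).1.1, hlt⟩
  have hcard : ∀ i, ((range i).image H).card = i := by
    intro i
    rw [card_image_of_injective _ hS.inj, card_range]
  refine ⟨H, hS, fun ρ α hα hρ => ?_⟩
  have hρ' : ∀ l, ∀ i ∈ α l, ρ ≤ i := by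
    intro l i hi
    rcases Nat.eq_zero_or_pos l with rfl | h
    · exact hρ i hi
    · obtain ⟨j, hj⟩ := hα.ne 0
      exact (hρ j hj).trans (hα.lt 0 l h j hj i hi).le
  have hstar := hA' (V := V) (γ := H) (E := E ρ) (W := W ρ) (ρ := ρ)
    (fun m hm => (hH m).2.1 ρ (mem_range.2 (by rw [hcard]; omega)))
    (fun m hm => (hH m).2.2 ρ (mem_range.2 (by rw [hcard]; omega)))
  have hsup : ∀ L, ((range (L + 1)).image (fun l => ((range (l + 1)).biUnion α).biUnion H)).sup id =
      ((range (L + 1)).biUnion α).biUnion H := by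
    intro L
    apply le_antisymm
    · apply Finset.sup_le
      intro δ hδ
      obtain ⟨l, hl, rfl⟩ := mem_image.1 hδ
      rw [mem_range] at hl
      exact biUnion_subset_biUnion_of_subset_left H (biUnion_subset_biUnion_of_subset_left α
        (range_subset_range.2 (by omega)))
    · exact Finset.le_sup (f := id) (mem_image_of_mem (fun l => ((range (l + 1)).biUnion α).biUnion H)
        (mem_range.2 (Nat.lt_succ_self L)))
  intro L
  induction L with
  | zero => simpa using h0 ρ
  | succ L ih =>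
    have hne := hα.ne L
    have h1 := hstar ((α L).min' hne) (hρ' L _ (min'_mem _ _))
      ((range L).image (fun l => ((range (l + 1)).biUnion α).biUnion H)) (by
        simp only [KC, mem_powerset]
        intro δ hδ
        obtain ⟨l, hl, rfl⟩ := mem_image.1 hδ
        rw [mem_range] at hl
        refine mem_image.2 ⟨((range (l + 1)).biUnion α).image H, ?_, ?_⟩
        · rw [mem_powerset]
          refine image_subset_image ?_
          intro i hi
          obtain ⟨k, hk, hik⟩ := mem_biUnion.1 hi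
          rw [mem_range] at hk
          exact mem_range.2 (hα.lt k L (by omega) i hik _ (min'_mem _ _))
        · rw [image_biUnion]
          rfl) ih (α L) hne (fun i hi => min'_le _ _ hi)
    have h2 : insert (((range L).image (fun l => ((range (l + 1)).biUnion α).biUnion H)).sup id ∪ (α L).biUnion H)
        ((range L).image (fun l => ((range (l + 1)).biUnion α).biUnion H)) ∈ W ρ := h1.1
    have h3 : ((range L).image (fun l => ((range (l + 1)).biUnion α).biUnion H)).sup id ∪ (α L).biUnion H =
        ((range (L + 1)).biUnion α).biUnion H := by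
      rcases Nat.eq_zero_or_pos L with rfl | h
      · simp
      · obtain ⟨K, rfl⟩ : ∃ K, L = K + 1 := ⟨L - 1, by omega⟩
        rw [hsup K, range_add_one (n := K + 1), biUnion_insert, union_comm (α (K + 1)), union_biUnion]
    rw [h3, ← image_insert (fun l => ((range (l + 1)).biUnion α).biUnion H), ← range_add_one] at h2
    exact h2

theorem Succ.of_blocks {H : ℕ → Finset ℕ} (h : Blocks H) : Succ H :=
  ⟨h.1, fun _ _ hkl _ hi _ hj => Blocks.lt h hkl hi hj⟩

/-- **Nested compositions for countably many sequences of maps.** -/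
theorem main (T : ℕ → ℕ → ℤ × ℤ) (hT : ∀ ρ, Adm (T ρ)) :
    ∃ H, Succ H ∧ ∀ (ρ : ℕ) (α : ℕ → Finset ℕ), Succ α → (∀ i ∈ α 0, ρ ≤ i) → ∀ L,
      ExC (T ρ) ((range L).image (fun l => ((range (l + 1)).biUnion α).biUnion H)) := by
  obtain ⟨V, hV0, hV⟩ := Pool.Agent.H12x.UF.exists_idem
  have hI : Idem V := ⟨hV0, hV⟩
  choose W hW0 hWE hW using fun ρ => tree_nested hI (hT ρ)
  obtain ⟨H, hH, h⟩ := fusion hI W hW0 hW
  exact ⟨H, hH, fun ρ α hα hρ L => hWE ρ _ (h ρ α hα hρ L)⟩

end Pool.Agent.H12x.NC
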