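import Mathlib
import Pool.Agent.H12x.NC.Fus

/-! Exact positions of primes in orbits of affine maps: exponents which serve all maps. -/

set_option autoImplicit false

namespace Pool.Agent.H12x.NC

open Finset Filter
open Pool.Agent.H12x.UF (Good Blocks)

/-- the `n`-th iterate of `x ↦ a x + b` as a form -/
def pw (a b : ℤ) (n : ℕ) : ℤ × ℤ := (a ^ n, b * ∑ i ∈ range n, a ^ i)

theorem pw_iter (a b : ℤ) (n : ℕ) (x : ℤ) : (fun z : ℤ => a * z + b)^[n] x = (pw a b n).1 * x + (pw a b n).2 := by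
  induction n with
  | zero => simp [pw]
  | succ n ih =>
    rw [Function.iterate_succ_apply', ih]
    unfold pw
    rw [Finset.sum_range_succ']
    simp only [pow_succ, ← Finset.sum_mul]
    ring

theorem tc_const (a b : ℤ) (β : Finset ℕ) : tc (fun _ => (a, b)) β = pw a b β.card := by
  induction β using Finset.induction_on_max with
  | empty =>
    rw [tc_empty]
    simp [pw]
  | insert m β hmax ih =>
    have hm : m ∉ β := fun h1 => lt_irrefl _ (hmax m h1)
    rw [tc_insert _ hmax, ih, card_insert_of_notMem hm]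
    unfold cmp pw
    rw [Finset.sum_range_succ']
    ext
    · simp only [pow_succ]
      ring
    · simp only [pow_succ, ← Finset.sum_mul]
      ring

theorem pw_coprime {a b : ℤ} (hc : IsCoprime a b) (n : ℕ) : IsCoprime (pw a b n).1 (pw a b n).2 := by
  rcases Nat.eq_zero_or_pos n with rfl | hn
  · simp [pw, isCoprime_one_left]
  · unfold pw
    apply IsCoprime.mul_right
    · exact hc.pow_left
    · apply IsCoprime.pow_left
      obtain ⟨k, hk⟩ := Nat.exists_eq_succ_of_ne_zero hn.ne'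
      rw [hk, Nat.succ_eq_add_one, Finset.sum_range_succ']
      simp only [pow_succ, ← Finset.sum_mul, pow_zero]
      exact ⟨-(∑ i ∈ range k, a ^ i), 1, by ring⟩

theorem pw_ne {a b : ℤ} (ha : 1 ≤ a) (hne : (a, b) ≠ (1, 0)) {n : ℕ} (hn : n ≠ 0) : pw a b n ≠ (1, 0) := by
  intro h
  have h1 := (Prod.ext_iff.1 h).1
  have h2 := (Prod.ext_iff.1 h).2
  simp only [pw] at h1 h2
  have hd1 : a = 1 := by
    by_contra h3
    have h4 : 1 < a := lt_of_le_of_ne ha (Ne.symm h3)
    have h5 := one_lt_pow₀ h4 hn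
    omega
  subst hd1
  have h3 : b = 0 := by
    simp only [one_pow, sum_const, card_range, nsmul_eq_mul, mul_one, mul_eq_zero] at h2
    rcases h2 with h2 | h2
    · exact h2
    · exact absurd (by exact_mod_cast h2) hn
  exact hne (by rw [h3])

theorem pw_cmp (a b : ℤ) (m n : ℕ) : cmp (pw a b m) (pw a b n) = pw a b (m + n) := by
  unfold cmp pw
  ext
  · simp only [pow_add]
  · simp only
    rw [add_comm m n, Finset.sum_range_add]
    simp only [pow_add, ← Finset.mul_sum]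
    have h : (∑ i ∈ range (n + m), a ^ i) = (∑ i ∈ range (m + n), a ^ i) := by rw [add_comm]
    have h1 : (∑ i ∈ range (m + n), a ^ i) = ∑ i ∈ range m, a ^ i + a ^ m * ∑ i ∈ range n, a ^ i := by
      rw [Finset.sum_range_add]
      simp only [pow_add, ← Finset.mul_sum]
    have h2 : (∑ i ∈ range (n + m), a ^ i) = ∑ i ∈ range n, a ^ i + a ^ n * ∑ i ∈ range m, a ^ i := by
      rw [Finset.sum_range_add]
      simp only [pow_add, ← Finset.mul_sum]
    rw [← h2, h, h1]
    ring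

theorem pw_inj {a b : ℤ} (ha : 1 ≤ a) (hne : (a, b) ≠ (1, 0)) : Function.Injective (pw a b) := by
  have key : ∀ m n : ℕ, m < n → pw a b m ≠ pw a b n := by
    intro m n hmn h
    obtain ⟨k, rfl⟩ : ∃ k, n = k + m := ⟨n - m, by omega⟩
    rw [← pw_cmp] at h
    have h1 : (1, 0) = pw a b k := cmp_cancel (f := pw a b m) (by
      simp only [pw]
      exact one_le_pow₀ ha) (by rw [one_cmp]; exact h)
    exact pw_ne ha hne (by omega) h1.symm
  intro m n h
  rcases lt_trichotomy m n with h1 | h1 | h1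
  · exact absurd h (key m n h1)
  · exact h1
  · exact absurd h.symm (key n m h1)

theorem adm_const {a b : ℤ} (ha : 1 ≤ a) (hc : IsCoprime a b) (hne : (a, b) ≠ (1, 0)) : Adm (fun _ => (a, b)) := by
  intro β hβ
  rw [tc_const]
  exact ⟨one_le_pow₀ ha, pw_coprime hc _, pw_ne ha hne (card_ne_zero.2 hβ)⟩

/-- **exponents which serve all maps** -/
theorem exponents : ∃ e : ℕ → ℕ, (∀ m, 1 ≤ e m) ∧ ∀ a b : ℤ, 1 ≤ a → IsCoprime a b → (a, b) ≠ (1, 0) →
    ∃ ρ : ℕ, ∀ α : ℕ → Finset ℕ, Succ α → (∀ i ∈ α 0, ρ ≤ i) → ∀ L R : ℕ,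
      {q : ℕ | ∀ t ≤ R, (((fun z : ℤ => a * z + b)^[t] q).toNat.Prime ↔
        t = 0 ∨ ∃ l < L, t = ∑ m ∈ (range (l + 1)).biUnion α, e m)}.Infinite := by
  classical
  obtain ⟨f, hf⟩ : ∃ f : ℕ → ℤ × ℤ, Function.Surjective f := exists_surjective_nat _
  set g : ℕ → ℤ × ℤ := fun ρ => if 1 ≤ (f ρ).1 ∧ IsCoprime (f ρ).1 (f ρ).2 ∧ f ρ ≠ (1, 0) then f ρ else (1, 1) with hg
  have hg1 : ∀ ρ, 1 ≤ (g ρ).1 ∧ IsCoprime (g ρ).1 (g ρ).2 ∧ g ρ ≠ (1, 0) := by
    intro ρ
    simp only [hg]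
    split_ifs with h
    · exact h
    · exact ⟨le_rfl, isCoprime_one_left, by decide⟩
  obtain ⟨H, hH, h⟩ := main (fun ρ _ => g ρ) (fun ρ => by
    obtain ⟨h1, h2, h3⟩ := hg1 ρ
    exact adm_const h1 h2 h3)
  refine ⟨fun m => (H m).card, fun m => card_pos.2 (hH.ne m), fun a b ha hc hne => ?_⟩
  obtain ⟨ρ, hρ⟩ := hf (a, b)
  have hgρ : g ρ = (a, b) := by
    simp only [hg, hρ]
    rw [if_pos ⟨ha, hc, hne⟩]
  refine ⟨ρ, fun α hα hαρ L R => ?_⟩
  have h1 := h ρ α hα hαρ L
  simp only [hgρ] at h1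
  have hdis : ∀ A : Finset ℕ, (A.biUnion H).card = ∑ m ∈ A, (H m).card := by
    intro A
    rw [card_biUnion]
    intro i _ j _ hij
    change Disjoint (H i) (H j)
    rw [Finset.disjoint_left]
    intro x hx hx'
    rcases lt_or_gt_of_ne hij with h2 | h2
    · exact lt_irrefl _ (hH.lt i j h2 x hx x hx')
    · exact lt_irrefl _ (hH.lt j i h2 x hx' x hx)
  set s : ℕ → ℕ := fun l => ∑ m ∈ (range (l + 1)).biUnion α, (H m).card with hs
  have hfs : ∀ x, x ∈ fs (fun _ => (a, b)) ((range L).image (fun l => ((range (l + 1)).biUnion α).biUnion H)) ↔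
      x = (1, 0) ∨ ∃ l < L, x = pw a b (s l) := by
    intro x
    unfold fs
    rw [mem_insert, image_image, mem_image]
    refine or_congr_right ?_
    constructor
    · rintro ⟨l, hl, rfl⟩
      refine ⟨l, mem_range.1 hl, ?_⟩
      simp only [Function.comp]
      rw [tc_const, hdis]
    · rintro ⟨l, hl, rfl⟩
      refine ⟨l, mem_range.2 hl, ?_⟩
      simp only [Function.comp]
      rw [tc_const, hdis]
  have h2 := h1 (((range (R + 1)).filter (fun t => ¬ (t = 0 ∨ ∃ l < L, t = s l))).image (pw a b)) (by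
    intro x hx
    obtain ⟨t, ht, rfl⟩ := mem_image.1 hx
    refine ⟨one_le_pow₀ ha, fun h3 => ?_⟩
    have h4 := (mem_filter.1 ht).2
    rcases (hfs _).1 h3 with h5 | ⟨l, hl, h5⟩
    · exact h4 (Or.inl (pw_inj ha hne (h5.trans (by simp [pw]))))
    · exact h4 (Or.inr ⟨l, hl, pw_inj ha hne h5⟩))
  refine Set.Infinite.mono ?_ h2
  intro q hq t ht
  rw [pw_iter]
  constructor
  · intro h3
    by_contra h4
    exact hq.2 (pw a b t) (mem_image_of_mem _ (mem_filter.2 ⟨mem_range.2 (by omega), h4⟩)) h3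
  · rintro (rfl | ⟨l, hl, rfl⟩)
    · have := hq.1 (1, 0) ((hfs _).2 (Or.inl rfl))
      simpa [pw] using this
    · exact hq.1 _ ((hfs _).2 (Or.inr ⟨l, hl, rfl⟩))

end Pool.Agent.H12x.NC
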